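import Pool.Agent.R335.IC.Ring

set_option autoImplicit false

/-!
# Ideal Chomp: the second player wins on some ring of every Krull dimension

The ring is `R = {a + b i : a ∈ S, b ∈ m}` where `(S, m)` is a Noetherian local ring of
dimension `n` whose residue field is real; B answers `a` by `i * a`.
-/

namespace Pool.Agent.Results.MP_ba75bf_co.EveryDimension

open IsLocalRing

variable {R : Type} [CommRing R]

/-- The ideal `I` of the position reached after the moves in the list `l`
(`(0)` for the empty list). -/
def posIdeal (l : List R) : Ideal R := Ideal.span {x | x ∈ l}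

/-- The list of all moves of the first `n` rounds of the Ideal Chomp game (a round is a move of A
followed by a move of B) when A plays `α 0, α 1, …` and B answers according to `σ`, a function of
the list of all moves made so far. -/
def history (σ : List R → R) (α : ℕ → R) : ℕ → List R
  | 0 => []
  | n + 1 => (history σ α n ++ [α n]) ++ [σ (history σ α n ++ [α n])]

/-- `σ` is a winning strategy for B in the Ideal Chomp game on `R`. For every sequence `α` of
elements of `R` that A may want to play there is a round `N` such that: in each round `k < N` the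
choice `α k` of A is a legal move (not in the current ideal) that does not produce `R`, and the
answer of B is a legal move that does not produce `R`; and in round `N` the choice `α N` of A is
either illegal (it lies in the current ideal) or produces `R`, so that A loses. -/
def BWins (σ : List R → R) : Prop :=
  ∀ α : ℕ → R, ∃ N : ℕ,
    (∀ k < N,
      α k ∉ posIdeal (history σ α k) ∧
      posIdeal (history σ α k ++ [α k]) ≠ ⊤ ∧
      σ (history σ α k ++ [α k]) ∉ posIdeal (history σ α k ++ [α k]) ∧
      posIdeal (history σ α (k + 1)) ≠ ⊤) ∧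
    (α N ∈ posIdeal (history σ α N) ∨ posIdeal (history σ α N ++ [α N]) = ⊤)

theorem posIdeal_append (l : List R) (a : R) :
    posIdeal (l ++ [a]) = posIdeal l ⊔ Ideal.span {a} := by
  unfold posIdeal
  rw [← Ideal.span_union]
  congr 1
  ext x
  simp [or_comm]

theorem mem_append {l : List R} {a x : R} :
    x ∈ posIdeal (l ++ [a]) ↔ ∃ y ∈ posIdeal l, ∃ r : R, x = y + r * a := by
  rw [posIdeal_append, Submodule.mem_sup]
  constructor
  · rintro ⟨y, hy, z, hz, rfl⟩
    obtain ⟨r, rfl⟩ := Ideal.mem_span_singleton'.1 hz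
    exact ⟨y, hy, r, rfl⟩
  · rintro ⟨y, hy, r, rfl⟩
    exact ⟨y, hy, r * a, Ideal.mem_span_singleton'.2 ⟨r, rfl⟩, rfl⟩

/-- the abstract winning criterion -/
theorem wins [IsLocalRing R] [IsNoetherianRing R] (J : R → R)
    (h1 : ∀ a ∈ maximalIdeal R, J a ∈ maximalIdeal R)
    (h2 : ∀ a ∈ maximalIdeal R, J (J a) = -a)
    (h3 : ∀ a ∈ maximalIdeal R, ∀ b ∈ maximalIdeal R, J (a + b) = J a + J b)
    (h4 : ∀ r : R, ∀ a ∈ maximalIdeal R, J (r * a) = r * J a)
    (h5 : ∀ r : R, IsUnit (1 + r * r)) : BWins (fun l : List R => J (l.getLast?.getD 0)) := by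
  set σ : List R → R := fun l => J (l.getLast?.getD 0) with hσ
  intro α
  have hlast : ∀ n, σ (history σ α n ++ [α n]) = J (α n) := by
    intro n
    simp [hσ]
  let P : ℕ → Prop := fun k => α k ∉ posIdeal (history σ α k) ∧
      posIdeal (history σ α k ++ [α k]) ≠ ⊤
  let Inv : ℕ → Prop := fun k => posIdeal (history σ α k) ≤ maximalIdeal R ∧
      ∀ x ∈ posIdeal (history σ α k), J x ∈ posIdeal (history σ α k)
  -- the step
  have step : ∀ k, Inv k → P k → (J (α k) ∉ posIdeal (history σ α k ++ [α k])) ∧ Inv (k + 1) := by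
    rintro k ⟨hI, hJ⟩ ⟨hP1, hP2⟩
    have ha : α k ∈ maximalIdeal R := by
      have : posIdeal (history σ α k ++ [α k]) ≤ maximalIdeal R :=
        IsLocalRing.le_maximalIdeal hP2
      exact this (mem_append.2 ⟨0, Ideal.zero_mem _, 1, by ring⟩)
    refine ⟨fun hc => ?_, ?_, ?_⟩
    · obtain ⟨x, hx, r, hr⟩ := mem_append.1 hc
      have e : -(α k) = J x + r * J (α k) := by
        rw [← h2 _ ha, hr, h3 _ (hI hx) _ (Ideal.mul_mem_left _ _ ha), h4 _ _ ha, ← hr]
      have e2 : (1 + r * r) * α k = -(J x + r * x) := by
        rw [hr] at e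
        linear_combination -e
      have e3 : (1 + r * r) * α k ∈ posIdeal (history σ α k) := by
        rw [e2]
        exact (Ideal.neg_mem_iff _).2 (Ideal.add_mem _ (hJ x hx) (Ideal.mul_mem_left _ _ hx))
      obtain ⟨u, hu⟩ := (h5 r).exists_left_inv
      apply hP1
      have := Ideal.mul_mem_left _ u e3
      rwa [← mul_assoc, hu, one_mul] at this
    · intro x hx
      change x ∈ posIdeal ((history σ α k ++ [α k]) ++ [σ (history σ α k ++ [α k])]) at hx
      rw [hlast] at hx
      obtain ⟨y, hy, r, rfl⟩ := mem_append.1 hx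
      obtain ⟨z, hz, s, rfl⟩ := mem_append.1 hy
      exact Ideal.add_mem _ (Ideal.add_mem _ (hI hz) (Ideal.mul_mem_left _ _ ha))
        (Ideal.mul_mem_left _ _ (h1 _ ha))
    · intro x hx
      change x ∈ posIdeal ((history σ α k ++ [α k]) ++ [σ (history σ α k ++ [α k])]) at hx
      change J x ∈ posIdeal ((history σ α k ++ [α k]) ++ [σ (history σ α k ++ [α k])])
      rw [hlast] at hx ⊢
      obtain ⟨y, hy, r, rfl⟩ := mem_append.1 hx
      obtain ⟨z, hz, s, rfl⟩ := mem_append.1 hy
      have hsa : s * α k ∈ maximalIdeal R := Ideal.mul_mem_left _ _ ha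
      rw [h3 _ (Ideal.add_mem _ (hI hz) hsa) _ (Ideal.mul_mem_left _ _ (h1 _ ha)),
        h3 _ (hI hz) _ hsa, h4 _ _ ha, h4 _ _ (h1 _ ha), h2 _ ha]
      refine mem_append.2 ⟨J z + (-r) * α k, mem_append.2 ⟨J z, hJ z hz, -r, rfl⟩, s, by ring⟩
  have inv0 : Inv 0 := by
    have e : posIdeal (history σ α 0) = ⊥ := by
      simp [posIdeal, history]
    constructor
    · rw [e]; exact bot_le
    · rw [e]
      intro x hx
      rw [Ideal.mem_bot] at hx ⊢
      rw [hx]
      have := h4 0 0 (Ideal.zero_mem _)
      simpa using this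
  have mono : ∀ k, posIdeal (history σ α k) ≤ posIdeal (history σ α (k + 1)) := by
    intro k
    change _ ≤ posIdeal ((history σ α k ++ [α k]) ++ [σ (history σ α k ++ [α k])])
    rw [posIdeal_append, posIdeal_append]
    exact le_sup_left.trans le_sup_left
  have hmem : ∀ k, α k ∈ posIdeal (history σ α (k + 1)) := by
    intro k
    change _ ∈ posIdeal ((history σ α k ++ [α k]) ++ [σ (history σ α k ++ [α k])])
    refine mem_append.2 ⟨α k, mem_append.2 ⟨0, Ideal.zero_mem _, 1, by ring⟩, 0, by ring⟩
  have hex : ∃ k, ¬ P k := by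
    by_contra hall
    push Not at hall
    let f : ℕ →o Ideal R := ⟨fun k => posIdeal (history σ α k), monotone_nat_of_le_succ mono⟩
    obtain ⟨n, hn⟩ := monotone_stabilizes_iff_noetherian.2 ‹IsNoetherianRing R› f
    apply (hall n).1
    have : f n = f (n + 1) := hn (n + 1) (Nat.le_succ n)
    change posIdeal (history σ α n) = posIdeal (history σ α (n + 1)) at this
    rw [this]
    exact hmem n
  classical
  refine ⟨Nat.find hex, ?_, ?_⟩
  · have hlt : ∀ k < Nat.find hex, P k := fun k hk => not_not.1 (Nat.find_min hex hk)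
    have hinv : ∀ k ≤ Nat.find hex, Inv k := by
      intro k
      induction k with
      | zero => intro _; exact inv0
      | succ k ih => intro hk; exact (step k (ih (by omega)) (hlt k (by omega))).2
    intro k hk
    have hPk := hlt k hk
    refine ⟨hPk.1, hPk.2, ?_, ?_⟩
    · rw [hlast]
      exact (step k (hinv k hk.le) hPk).1
    · intro htop
      have := (hinv (k + 1) hk).1
      rw [htop, top_le_iff] at this
      exact Ideal.IsPrime.ne_top' this
  · have := Nat.find_spec hex
    by_contra hc
    push Not at hc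
    exact this hc

/-- For every `n` there is a (Noetherian) commutative ring of Krull dimension `n` on which the
second player B has a winning strategy in the Ideal Chomp game. -/
theorem result : ∀ n : ℕ, ∃ (R : Type) (_ : CommRing R),
    IsNoetherianRing R ∧ ringKrullDim R = n ∧ ∃ σ : List R → R, BWins σ := by
  intro n
  obtain ⟨S, _, _, hN, hd, h5⟩ := Pool.Agent.R335.IC.exists_local n
  have hR : IsNoetherianRing (Pool.Agent.R335.IC.ring S) := Pool.Agent.R335.IC.noeth
  refine ⟨Pool.Agent.R335.IC.ring S, inferInstance, hR, ?_, _, wins Pool.Agent.R335.IC.J ?_ ?_ ?_ ?_ ?_⟩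
  · rw [Pool.Agent.R335.IC.dim, hd]
  · exact fun a ha => Pool.Agent.R335.IC.J_mem ha
  · exact fun a ha => Pool.Agent.R335.IC.J_J ha
  · exact fun a ha b hb => Pool.Agent.R335.IC.J_add ha hb
  · exact fun r a ha => Pool.Agent.R335.IC.J_mul r ha
  · exact Pool.Agent.R335.IC.unit_sq h5

end Pool.Agent.Results.MP_ba75bf_co.EveryDimension
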